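import Pool.Agent.H265R3.ML.Count

/-!
# Random rooted graphs with excluded minors need not converge weakly

Both models: if `S` contains a path and no star, then there are members with `n` vertices for every
`n ≥ 1` and `R_n` has no weak limit, in the labelled and in the unlabelled model; for instance
`S = {P_4}`. Unlabelled model: the same failure for a finite set `S` of two trees such that all
finite paths have no minor in `S` (so the diameters are unbounded).
-/

namespace Pool.Agent.Results.MP_e761a2_pr.NoWeakLimit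

open SimpleGraph Pool.Agent.H265R3.ML

theorem P4_not_star : ¬ IsStar ⟨4, pathGraph 4⟩ := by
  rintro ⟨c, hc⟩
  have h1 := hc (0 : Fin 4) (1 : Fin 4) (by rw [pathGraph_adj]; decide)
  have h2 := hc (2 : Fin 4) (3 : Fin 4) (by rw [pathGraph_adj]; decide)
  rcases h1 with h | h <;> rcases h2 with h' | h' <;> rw [← h] at h' <;>
    exact absurd (congrArg (fun z : Fin 4 => z.val) h') (by decide)

theorem result :
    (∃ S : Set FGraph, S = {⟨4, pathGraph 4⟩} ∧ S.Finite ∧ S.Nonempty ∧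
      (∀ H ∈ S, H.2.Connected) ∧ (∀ n, 1 ≤ n → Nonempty (Ex S n)) ∧ ¬ ConvL S ∧ ¬ ConvU S) ∧
    (∀ S : Set FGraph, (∀ H ∈ S, H.2.Connected) →
      (∃ k, (⟨k, pathGraph k⟩ : FGraph) ∈ S) → (∀ H ∈ S, ¬ IsStar H) →
      (∀ n, 1 ≤ n → Nonempty (Ex S n)) ∧ ¬ ConvL S ∧ ¬ ConvU S) ∧
    (∃ S : Set FGraph, S.Finite ∧ S.Nonempty ∧ (∀ H ∈ S, H.2.Connected) ∧
      (∀ n, ∀ H ∈ S, ¬ IsMinor H.2 (pathGraph n)) ∧ (∀ n, 1 ≤ n → Nonempty (Ex S n)) ∧
      ¬ ConvU S) := by
  refine ⟨⟨{⟨4, pathGraph 4⟩}, rfl, Set.finite_singleton _, Set.singleton_nonempty _, ?_, ?_⟩,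
    path_noStar, ⟨S2, (Set.finite_singleton _).insert _, ⟨pend 5 2, Or.inl rfl⟩, ?_, path_S2, ?_,
      not_convU_S2⟩⟩
  · rintro H hH
    have hH' : H = ⟨4, pathGraph 4⟩ := hH
    rw [hH']
    exact pathGraph_connected 3
  · refine path_noStar _ ?_ ⟨4, rfl⟩ ?_
    · rintro H hH
      have hH' : H = ⟨4, pathGraph 4⟩ := hH
      rw [hH']
      exact pathGraph_connected 3
    · rintro H hH
      have hH' : H = ⟨4, pathGraph 4⟩ := hH
      rw [hH']
      exact P4_not_star
  · rintro H (rfl | hH)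
    · exact pend_connected 5 2 (by norm_num)
    · have hH' : H = pend 6 1 := hH
      rw [hH']
      exact pend_connected 6 1 (by norm_num)
  · intro n hn
    obtain ⟨m, rfl⟩ : ∃ m, n = m + 1 := ⟨n - 1, by omega⟩
    exact ⟨⟨(pathGraph (m + 1), 0), pathGraph_connected m, path_S2 (m + 1)⟩⟩

end Pool.Agent.Results.MP_e761a2_pr.NoWeakLimit
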